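import Mathlib
import Pool.Graph.R_seed8.Helper582.Cube

set_option autoImplicit false

namespace Pool.Agent.H184.Thr

open Pool.Agent.Helper582.Cube

/-- `A` contains all cells of some line of `[n]^k`: every coordinate of the line is constant,
increasing or decreasing, and not all are constant. -/
def HasLine {k n : ℕ} (A : Finset (Fin k → Fin n)) : Prop :=
  ∃ f : Fin k → Fin n → Fin n,
    (∀ j, (∃ c : Fin n, f j = fun _ => c) ∨ f j = id ∨ f j = Fin.rev) ∧
    (∃ j, f j = id ∨ f j = Fin.rev) ∧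
    ∀ t : Fin n, (fun j => f j t) ∈ A

/-- A set `S` of positions (cells of the first player, cells of the second player) inside which
the first player can stay until she owns a line before the second player does. -/
def WinSet {k n : ℕ} (S : Set (Finset (Fin k → Fin n) × Finset (Fin k → Fin n))) : Prop :=
  ∀ p ∈ S, HasLine p.1 ∨
    (¬ HasLine p.2 ∧
      (p.1.card = p.2.card ∨ p.1.card = p.2.card + 1) ∧
      (p.1.card = p.2.card →
        ∃ c : Fin k → Fin n, c ∉ p.1 ∧ c ∉ p.2 ∧ (insert c p.1, p.2) ∈ S) ∧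
      (p.1.card = p.2.card + 1 →
        (∃ c : Fin k → Fin n, c ∉ p.1 ∧ c ∉ p.2) ∧
        ∀ c : Fin k → Fin n, c ∉ p.1 → c ∉ p.2 → (p.1, insert c p.2) ∈ S))

/-- The first player can force a win on `[n]^k`. -/
def FirstCanForceWin (k n : ℕ) : Prop :=
  ∃ S : Set (Finset (Fin k → Fin n) × Finset (Fin k → Fin n)),
    ((∅ : Finset (Fin k → Fin n)), (∅ : Finset (Fin k → Fin n))) ∈ S ∧ WinSet S

/-- The second player can force a draw on `[n]^k`. -/
def SecondCanForceDraw (k n : ℕ) : Prop :=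
  ∃ T : Set (Finset (Fin k → Fin n) × Finset (Fin k → Fin n)),
    ((∅ : Finset (Fin k → Fin n)), (∅ : Finset (Fin k → Fin n))) ∈ T ∧
    ∀ p ∈ T, ¬ HasLine p.1 ∧
      (p.1.card = p.2.card → ¬ HasLine p.2 →
        ∀ c : Fin k → Fin n, c ∉ p.1 → c ∉ p.2 → (insert c p.1, p.2) ∈ T) ∧
      (p.1.card = p.2.card + 1 → (∃ c : Fin k → Fin n, c ∉ p.1 ∧ c ∉ p.2) →
        ∃ c : Fin k → Fin n, c ∉ p.1 ∧ c ∉ p.2 ∧ (p.1, insert c p.2) ∈ T)

variable {k n : ℕ}

/-- the first player can force a win from the position `(A, B)` -/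
def FW (A B : Finset (Fin k → Fin n)) : Prop := ∃ S, WinSet S ∧ (A, B) ∈ S

theorem FW_line {A B : Finset (Fin k → Fin n)} (h : HasLine A) : FW A B := by
  refine ⟨{(A, B)}, ?_, rfl⟩
  intro p hp
  rw [Set.mem_singleton_iff] at hp
  subst hp
  exact Or.inl h

theorem WinSet.union {S T : Set (Finset (Fin k → Fin n) × Finset (Fin k → Fin n))}
    (hS : WinSet S) (hT : WinSet T) : WinSet (S ∪ T) := by
  rintro p (hp | hp)
  · rcases hS p hp with h | ⟨h1, h2, h3, h4⟩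
    · exact Or.inl h
    · refine Or.inr ⟨h1, h2, fun h => ?_, fun h => ⟨(h4 h).1, fun c h5 h6 => Or.inl ((h4 h).2 c h5 h6)⟩⟩
      obtain ⟨c, h5, h6, h7⟩ := h3 h
      exact ⟨c, h5, h6, Or.inl h7⟩
  · rcases hT p hp with h | ⟨h1, h2, h3, h4⟩
    · exact Or.inl h
    · refine Or.inr ⟨h1, h2, fun h => ?_, fun h => ⟨(h4 h).1, fun c h5 h6 => Or.inr ((h4 h).2 c h5 h6)⟩⟩
      obtain ⟨c, h5, h6, h7⟩ := h3 h
      exact ⟨c, h5, h6, Or.inr h7⟩

theorem FW_move {A B : Finset (Fin k → Fin n)} (hB : ¬ HasLine B) (hc : A.card = B.card)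
    {c : Fin k → Fin n} (h1 : c ∉ A) (h2 : c ∉ B) (h : FW (insert c A) B) : FW A B := by
  obtain ⟨S, hS, hm⟩ := h
  refine ⟨insert (A, B) S, ?_, Or.inl rfl⟩
  rintro p (hp | hp)
  · subst hp
    refine Or.inr ⟨hB, Or.inl hc, fun _ => ⟨c, h1, h2, Or.inr hm⟩, fun h => ?_⟩
    simp only at h
    omega
  · rcases hS p hp with h | ⟨h1, h2, h3, h4⟩
    · exact Or.inl h
    · refine Or.inr ⟨h1, h2, fun h => ?_, fun h => ⟨(h4 h).1, fun c h5 h6 => Or.inr ((h4 h).2 c h5 h6)⟩⟩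
      obtain ⟨c, h5, h6, h7⟩ := h3 h
      exact ⟨c, h5, h6, Or.inr h7⟩

theorem FW_reply {A B : Finset (Fin k → Fin n)} (hB : ¬ HasLine B) (hc : A.card = B.card + 1)
    (he : ∃ c : Fin k → Fin n, c ∉ A ∧ c ∉ B)
    (h : ∀ c : Fin k → Fin n, c ∉ A → c ∉ B → FW A (insert c B)) : FW A B := by
  choose! S hS hm using h
  refine ⟨insert (A, B) {p | ∃ c, c ∉ A ∧ c ∉ B ∧ p ∈ S c}, ?_, Or.inl rfl⟩
  rintro p (hp | ⟨c, hcA, hcB, hp⟩)
  · subst hp
    refine Or.inr ⟨hB, Or.inr hc, fun h => ?_, fun _ => ⟨he, fun c h1 h2 =>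
      Or.inr ⟨c, h1, h2, hm c h1 h2⟩⟩⟩
    simp only at h
    omega
  · rcases hS c hcA hcB p hp with h | ⟨h1, h2, h3, h4⟩
    · exact Or.inl h
    · refine Or.inr ⟨h1, h2, fun h => ?_, fun h => ⟨(h4 h).1, fun d h5 h6 =>
        Or.inr ⟨c, hcA, hcB, (h4 h).2 d h5 h6⟩⟩⟩
      obtain ⟨d, h5, h6, h7⟩ := h3 h
      exact ⟨d, h5, h6, Or.inr ⟨c, hcA, hcB, h7⟩⟩

theorem first_of_FW (h : FW (∅ : Finset (Fin k → Fin n)) ∅) : FirstCanForceWin k n := by
  obtain ⟨S, hS, hm⟩ := h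
  exact ⟨S, hm, hS⟩

/-- the game is determined -/
theorem determined (h : ¬ FirstCanForceWin k n) : SecondCanForceDraw k n := by
  refine ⟨{p | ¬ FW p.1 p.2}, fun h' => h (first_of_FW h'), ?_⟩
  intro p hp
  have hp' : ¬ FW p.1 p.2 := hp
  have hA : ¬ HasLine p.1 := fun h' => hp' (FW_line h')
  refine ⟨hA, fun hc hB c h1 h2 h3 => hp' (FW_move hB hc h1 h2 h3), fun hc he => ?_⟩
  by_cases hB : HasLine p.2
  · obtain ⟨c, h1, h2⟩ := he
    refine ⟨c, h1, h2, ?_⟩
    rintro ⟨S, hS, hm⟩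
    rcases hS _ hm with h' | ⟨h', _⟩
    · exact hA h'
    · apply h'
      obtain ⟨f, hf1, hf2, hf3⟩ := hB
      exact ⟨f, hf1, hf2, fun t => Finset.mem_insert_of_mem (hf3 t)⟩
  · by_contra hcon
    push Not at hcon
    refine hp' (FW_reply hB hc he fun c h1 h2 => ?_)
    have := hcon c h1 h2
    simpa using this

/-- a line of `[n]^3` in the description of `cubeLines` -/
theorem exists_cubeLine {n : ℕ} [NeZero n] {A : Finset (Fin 3 → Fin n)} (h : HasLine A) :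
    ∃ e ∈ cubeLines n, ∀ v ∈ e, v ∈ A := by
  obtain ⟨f, hf1, ⟨j0, hj0⟩, hf3⟩ := h
  classical
  let t : Fin 3 → Fin 3 := fun j => if f j = id then 1 else if f j = Fin.rev then 2 else 0
  let a : Fin 3 → Fin n := fun j => f j 0
  have key : ∀ (i : Fin n) (j : Fin 3),
      (if t j = 0 then a j else if t j = 1 then i else Fin.rev i) = f j i := by
    intro i j
    by_cases h1 : f j = id
    · have : t j = 1 := by simp [t, h1]
      simp [this, h1]
    · by_cases h2 : f j = Fin.rev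
      · have : t j = 2 := by simp only [t, if_neg h1, if_pos h2]
        simp [this, h2]
      · have ht : t j = 0 := by simp only [t, if_neg h1, if_neg h2]
        rcases hf1 j with ⟨c, hc⟩ | h | h
        · simp [ht, a, hc]
        · exact absurd h h1
        · exact absurd h h2
  refine ⟨_, ⟨a, t, ⟨j0, ?_⟩, rfl⟩, ?_⟩
  · rcases hj0 with h | h
    · simp [t, h]
    · by_cases h1 : f j0 = id
      · simp [t, h1]
      · simp only [t, if_neg h1, if_pos h]
        decide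
  · rintro v ⟨i, rfl⟩
    have : (fun j => if t j = 0 then a j else if t j = 1 then i else Fin.rev i) =
        fun j => f j i := by
      funext j
      exact key i j
    rw [this]
    exact hf3 i

/-- the lines without cells of `B`, with the cells of `A` removed -/
def al (n : ℕ) (A B : Finset (Fin 3 → Fin n)) : Set (Set (Fin 3 → Fin n)) :=
  {s | ∃ e ∈ cubeLines n, (∀ c ∈ e, c ∉ B) ∧ s = e \ {c | c ∈ A}}

/-- the positions of Breaker's strategy -/
def TT (n : ℕ) : Set (Finset (Fin 3 → Fin n) × Finset (Fin 3 → Fin n)) :=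
  {p | Disjoint p.1 p.2 ∧ ((p.1.card = p.2.card ∧ BW (al n p.1 p.2)) ∨
    ∃ x ∈ p.1, (p.1.erase x).card = p.2.card ∧ BW (al n (p.1.erase x) p.2))}

theorem draw_of_BW' {n : ℕ} [NeZero n] (hB : BW (cubeLines n)) : SecondCanForceDraw 3 n := by
  classical
  refine ⟨TT n, ⟨by simp, Or.inl ⟨rfl, hB.mono ?_⟩⟩, ?_⟩
  · rintro s ⟨e, he, _, rfl⟩
    exact ⟨e, he, fun a ha => ⟨ha, by simp⟩⟩
  rintro ⟨A, B⟩ ⟨hd, hp⟩
  simp only at hd hp ⊢
  have hdis : ∀ c ∈ A, c ∉ B := fun c hc => Finset.disjoint_left.1 hd hc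
  refine ⟨?_, ?_, ?_⟩
  · intro hA
    obtain ⟨e, he, hsub⟩ := exists_cubeLine hA
    rcases hp with ⟨_, hb⟩ | ⟨x, hx, _, hb⟩
    · apply (safe_BW _ hb).1
      refine ⟨e, he, fun c hc => hdis c (hsub c hc), ?_⟩
      symm
      rw [Set.sdiff_eq_empty]
      exact fun v hv => hsub v hv
    · obtain ⟨y, hy, hb'⟩ := (safe_BW _ hb).2 x
      apply (safe_BW _ hb').1
      have hse : e \ {c | c ∈ A.erase x} ⊆ {x} := by
        rintro v ⟨hv, hnv⟩
        by_contra hvx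
        exact hnv (Finset.mem_erase.2 ⟨hvx, hsub v hv⟩)
      refine ⟨e \ {c | c ∈ A.erase x}, ⟨e, he, fun c hc => hdis c (hsub c hc), rfl⟩,
        fun hye => hy (hse hye), ?_⟩
      symm
      rw [Set.sdiff_eq_empty]
      exact hse
  · intro hc _ c h1 h2
    rcases hp with ⟨_, hb⟩ | ⟨x, hx, hcx, _⟩
    · refine ⟨?_, Or.inr ⟨c, Finset.mem_insert_self _ _, ?_, ?_⟩⟩
      · rw [Finset.disjoint_insert_left]
        exact ⟨h2, hd⟩
      · rw [Finset.erase_insert h1]; exact hc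
      · rw [Finset.erase_insert h1]; exact hb
    · have := Finset.card_erase_lt_of_mem hx
      omega
  · intro hc he
    rcases hp with ⟨hcc, _⟩ | ⟨x, hx, hcx, hb⟩
    · omega
    obtain ⟨y, hy, hb'⟩ := (safe_BW _ hb).2 x
    have main : ∀ c, c ∉ A → c ∉ B → (∀ e ∈ cubeLines n, (∀ v ∈ e, v ∉ B) → c ∉ e →
        y ∉ e \ {v | v ∈ A.erase x}) → (A, insert c B) ∈ TT n := by
      intro c h1 h2 hce
      refine ⟨?_, Or.inl ⟨?_, hb'.mono ?_⟩⟩
      · rw [Finset.disjoint_insert_right]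
        exact ⟨h1, hd⟩
      · simp only [Finset.card_insert_of_notMem h2]
        exact hc
      · rintro s ⟨e, he, hbr, rfl⟩
        refine ⟨(e \ {v | v ∈ A.erase x}) \ {x}, ⟨_, ⟨e, he, fun v hv h =>
          hbr v hv (Finset.mem_insert_of_mem h), rfl⟩, hce e he (fun v hv h =>
          hbr v hv (Finset.mem_insert_of_mem h)) (fun h => hbr c h (Finset.mem_insert_self _ _)),
          rfl⟩, ?_⟩
        rintro v ⟨⟨h3, h4⟩, h5⟩
        refine ⟨h3, fun h6 => h4 (Finset.mem_erase.2 ⟨h5, h6⟩)⟩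
    by_cases hyA : y ∈ A
    · obtain ⟨c, h1, h2⟩ := he
      exact ⟨c, h1, h2, main c h1 h2 fun e _ _ _ h => h.2 (Finset.mem_erase.2 ⟨hy, hyA⟩)⟩
    · by_cases hyB : y ∈ B
      · obtain ⟨c, h1, h2⟩ := he
        exact ⟨c, h1, h2, main c h1 h2 fun e _ hbr _ h => hbr y h.1 hyB⟩
      · exact ⟨y, hyA, hyB, main y hyA hyB fun e _ _ hye h => hye h.1⟩

end Pool.Agent.H184.Thr
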