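import Pool.Agent.H184.Thr.Wins
import Pool.Graph.R_seed8.Results.MP_c0c4a4_co.DrawFromSix

set_option autoImplicit false

namespace Pool.Agent.H184.Thr

open Pool.Agent.Helper582.Cube

theorem draw_five_up (h5 : BW (cubeLines 5)) {n : ℕ} (hn : 5 ≤ n) : SecondCanForceDraw 3 n := by
  have : NeZero n := ⟨by omega⟩
  have : Nontrivial (Fin n) := Fin.nontrivial_iff_two_le.2 (by omega)
  apply draw_of_BW'
  by_cases h8 : 8 ≤ n
  · exact BW_large h8
  · have : n = 5 ∨ n = 6 ∨ n = 7 := by omega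
    rcases this with rfl | rfl | rfl
    · exact h5
    · exact Pool.Agent.Results.MP_c0c4a4_co.DrawFromSix.six
    · exact Pool.Agent.Results.MP_c0c4a4_co.DrawFromSix.seven

theorem three (h5 : BW (cubeLines 5)) : ∃ N : ℕ, (N = 4 ∨ N = 5) ∧ ∀ n : ℕ, 1 ≤ n →
    (n < N → FirstCanForceWin 3 n) ∧ (N ≤ n → SecondCanForceDraw 3 n) := by
  have h13 : ∀ n : ℕ, 1 ≤ n → n < 4 → FirstCanForceWin 3 n := by
    intro n h1 h2
    have : n = 1 ∨ n = 2 ∨ n = 3 := by omega
    rcases this with rfl | rfl | rfl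
    · exact win1
    · exact win2
    · exact win3
  by_cases h4 : FirstCanForceWin 3 4
  · refine ⟨5, Or.inr rfl, fun n h1 => ⟨fun h => ?_, fun h => draw_five_up h5 h⟩⟩
    by_cases h : n = 4
    · subst h; exact h4
    · exact h13 n h1 (by omega)
  · refine ⟨4, Or.inl rfl, fun n h1 => ⟨fun h => h13 n h1 h, fun h => ?_⟩⟩
    by_cases h' : n = 4
    · subst h'; exact determined h4
    · exact draw_five_up h5 (by omega)

end Pool.Agent.H184.Thr
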