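import Pool.Agent.H184.Thr.Defs

set_option autoImplicit false

namespace Pool.Agent.H184.Thr

/-- the five coordinate maps of a line of `[3]^3` -/
def g5 (q : Fin 5) (t : Fin 3) : Fin 3 :=
  match q with
  | 0 => 0
  | 1 => 1
  | 2 => 2
  | 3 => t
  | 4 => Fin.rev t

theorem g5_type (c : Fin 5) : (∃ d : Fin 3, g5 c = fun _ => d) ∨ g5 c = id ∨ g5 c = Fin.rev := by
  fin_cases c
  · exact Or.inl ⟨0, rfl⟩
  · exact Or.inl ⟨1, rfl⟩
  · exact Or.inl ⟨2, rfl⟩
  · exact Or.inr (Or.inl rfl)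
  · exact Or.inr (Or.inr rfl)

theorem g5_type' (c : Fin 5) (hc : 3 ≤ c) : g5 c = id ∨ g5 c = Fin.rev := by
  fin_cases c
  · exact absurd hc (by decide)
  · exact absurd hc (by decide)
  · exact absurd hc (by decide)
  · exact Or.inl rfl
  · exact Or.inr rfl

theorem hasLine_three {A : Finset (Fin 3 → Fin 3)} :
    HasLine A ↔ ∃ q : Fin 3 → Fin 5, (∃ j, 3 ≤ q j) ∧ ∀ t : Fin 3, (fun j => g5 (q j) t) ∈ A := by
  constructor
  · rintro ⟨f, hf1, ⟨j0, hj0⟩, hf3⟩
    have hq : ∀ j, ∃ q : Fin 5, f j = g5 q ∧ ((f j = id ∨ f j = Fin.rev) → 3 ≤ q) := by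
      intro j
      rcases hf1 j with ⟨c, hc⟩ | h | h
      · by_cases h1 : f j = id
        · exact ⟨3, by rw [h1]; rfl, fun _ => le_rfl⟩
        · by_cases h2 : f j = Fin.rev
          · exact ⟨4, by rw [h2]; rfl, fun _ => by decide⟩
          · refine ⟨⟨c.1, by omega⟩, ?_, fun h => ?_⟩
            · rw [hc]
              fin_cases c <;> rfl
            · rcases h with h | h
              · exact absurd h h1
              · exact absurd h h2
      · exact ⟨3, by rw [h]; rfl, fun _ => le_rfl⟩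
      · exact ⟨4, by rw [h]; rfl, fun _ => by decide⟩
    choose q hq1 hq2 using hq
    refine ⟨q, ⟨j0, hq2 j0 hj0⟩, fun t => ?_⟩
    have : (fun j => g5 (q j) t) = fun j => f j t := by
      funext j
      rw [hq1 j]
    rw [this]
    exact hf3 t
  · rintro ⟨q, ⟨j0, hj0⟩, h⟩
    exact ⟨fun j => g5 (q j), fun j => g5_type (q j), ⟨j0, g5_type' (q j0) hj0⟩, h⟩

instance (A : Finset (Fin 3 → Fin 3)) : Decidable (HasLine A) := decidable_of_iff' _ hasLine_three

/-- decoding of a cell number -/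
def cell (m : ℕ) : Fin 3 → Fin 3 := ![Fin.ofNat 3 (m / 9), Fin.ofNat 3 (m / 3), Fin.ofNat 3 m]

/-- the other end of the line through the centre -/
def rv (x : Fin 3 → Fin 3) : Fin 3 → Fin 3 := fun j => Fin.rev (x j)

/-- the centre -/
def o : Fin 3 → Fin 3 := fun _ => 1

/-- table of the second and third cells -/
def tab : List (ℕ × ℕ × ℕ) :=
  [(1, 4, 7), (0, 3, 6), (1, 4, 7), (0, 1, 2), (0, 1, 2), (0, 1, 2), (1, 0, 2), (0, 1, 2), (1, 0, 2), (0, 1, 2), (0, 1, 2), (0, 1, 2), (0, 1, 2), (0, 0, 0), (0, 2, 1), (0, 1, 2), (0, 6, 3), (0, 8, 4), (1, 0, 2), (0, 1, 2), (1, 0, 2), (0, 1, 2), (0, 18, 9), (0, 20, 10), (3, 0, 6), (0, 24, 12), (5, 2, 8)]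

/-- what the second cell must satisfy -/
def Good1 (s x : Fin 3 → Fin 3) : Prop := x ≠ o ∧ x ≠ s ∧ rv x ≠ s

/-- what the third cell must satisfy -/
def Good2 (s x y : Fin 3 → Fin 3) : Prop :=
  y ≠ o ∧ y ≠ s ∧ y ≠ x ∧ y ≠ rv x ∧ rv y ≠ s

/-- what the fourth cell must satisfy -/
def Good3 (s x y z : Fin 3 → Fin 3) : Prop :=
  z ≠ o ∧ z ≠ s ∧ z ≠ x ∧ z ≠ y ∧ z ≠ rv x ∧ z ≠ rv y ∧ HasLine ({x, y, z} : Finset (Fin 3 → Fin 3))

/-- no line of the second player -/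
def Good4 (s x y : Fin 3 → Fin 3) : Prop :=
  ∀ q : Fin 3 → Fin 5, (3 ≤ q 0 ∨ 3 ≤ q 1 ∨ 3 ≤ q 2) →
    (∃ t : Fin 3, (fun j => g5 (q j) t) = s) → (∃ t : Fin 3, (fun j => g5 (q j) t) = rv x) →
    ∃ t : Fin 3, (fun j => g5 (q j) t) = o ∨ (fun j => g5 (q j) t) = x ∨ (fun j => g5 (q j) t) = y

instance (s x : Fin 3 → Fin 3) : Decidable (Good1 s x) := by unfold Good1; infer_instance
instance (s x y : Fin 3 → Fin 3) : Decidable (Good2 s x y) := by unfold Good2; infer_instance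
instance (s x y z : Fin 3 → Fin 3) : Decidable (Good3 s x y z) := by unfold Good3; infer_instance
instance (s x y : Fin 3 → Fin 3) : Decidable (Good4 s x y) := by unfold Good4; infer_instance

/-- the entry of the table for the cell `s` -/
def look (s : Fin 3 → Fin 3) : ℕ × ℕ × ℕ :=
  tab.getD (9 * (s 0).1 + 3 * (s 1).1 + (s 2).1) (0, 0, 0)

theorem good_tab : ∀ s : Fin 3 → Fin 3, s ≠ o →
    Good1 s (cell (look s).1) ∧ Good2 s (cell (look s).1) (cell (look s).2.1) ∧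
      Good3 s (cell (look s).1) (cell (look s).2.1) (cell (look s).2.2) ∧
      Good4 s (cell (look s).1) (cell (look s).2.1) := by
  decide +kernel

end Pool.Agent.H184.Thr
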