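import Pool.Agent.H184.Thr.Small

set_option autoImplicit false

namespace Pool.Agent.H184.Thr

theorem card_of_hasLine {k n : ℕ} {A : Finset (Fin k → Fin n)} (h : HasLine A) : n ≤ A.card := by
  classical
  obtain ⟨f, hf1, ⟨j0, hj0⟩, hf3⟩ := h
  have hinj : Function.Injective (f j0) := by
    rcases hj0 with h | h <;> rw [h]
    · exact fun a b hab => hab
    · exact Fin.rev_injective
  have : Function.Injective (fun t : Fin n => fun j => f j t) := by
    intro a b hab
    exact hinj (congrFun hab j0)
  calc n = (Finset.univ.image (fun t : Fin n => fun j => f j t)).card := by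
        rw [Finset.card_image_of_injective _ this, Finset.card_univ, Fintype.card_fin]
    _ ≤ A.card := Finset.card_le_card (by
        intro v hv
        obtain ⟨t, _, rfl⟩ := Finset.mem_image.1 hv
        exact hf3 t)

theorem not_hasLine_of_card {k n : ℕ} {A : Finset (Fin k → Fin n)} (h : A.card < n) :
    ¬ HasLine A := fun h' => absurd (card_of_hasLine h') (by omega)

theorem win1 : FirstCanForceWin 3 1 := by
  apply first_of_FW
  refine FW_move (c := fun _ => 0) (not_hasLine_of_card (by simp)) rfl (by simp) (by simp) ?_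
  apply FW_line
  refine ⟨fun _ => id, fun j => Or.inr (Or.inl rfl), ⟨0, Or.inl rfl⟩, fun t => ?_⟩
  rw [Finset.mem_insert]
  left
  funext j
  exact Subsingleton.elim _ _

theorem line2 {c : Fin 3 → Fin 2} (hc : c ≠ fun _ => 0) {A : Finset (Fin 3 → Fin 2)}
    (h0 : (fun _ => 0) ∈ A) (h1 : c ∈ A) : HasLine A := by
  refine ⟨fun j => if c j = 0 then (fun _ => 0) else id, fun j => ?_, ?_, fun t => ?_⟩
  · by_cases h : c j = 0
    · left; exact ⟨0, by simp [h]⟩
    · right; left; simp [h]
  · by_contra hcon
    push Not at hcon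
    apply hc
    funext j
    by_contra h
    exact (hcon j).1 (by simp [h])
  · have ht : t = 0 ∨ t = 1 := by omega
    rcases ht with rfl | rfl
    · convert h0 using 1
      funext j
      by_cases h : c j = 0 <;> simp [h]
    · convert h1 using 1
      funext j
      by_cases h : c j = 0
      · simp [h]
      · have : c j = 1 := by omega
        simp [this]

theorem win2 : FirstCanForceWin 3 2 := by
  apply first_of_FW
  refine FW_move (c := fun _ => 0) (not_hasLine_of_card (by simp)) rfl (by simp) (by simp) ?_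
  refine FW_reply (not_hasLine_of_card (by simp)) (by simp) ⟨fun _ => 1, ?_, by simp⟩ ?_
  · intro h
    have := congrFun (Finset.mem_singleton.1 (by simpa using h)) (0 : Fin 3)
    simp at this
  intro b hb1 hb2
  obtain ⟨c, hc0, hcb⟩ : ∃ c : Fin 3 → Fin 2, c ≠ (fun _ => 0) ∧ c ≠ b := by
    by_cases h : b = fun _ => 1
    · subst h
      exact ⟨![1, 0, 0], by decide, by decide⟩
    · exact ⟨fun _ => 1, by decide, fun h' => h h'.symm⟩
  refine FW_move (c := c) (not_hasLine_of_card (by simp)) (by simp) ?_ ?_ ?_
  · simpa using hc0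
  · simpa using hcb
  · exact FW_line (line2 hc0 (by simp) (by simp))

theorem rv_rv (x : Fin 3 → Fin 3) : rv (rv x) = x := by
  funext j
  simp [rv]

theorem line_centre {x : Fin 3 → Fin 3} (hx : x ≠ o) {A : Finset (Fin 3 → Fin 3)}
    (h0 : o ∈ A) (h1 : x ∈ A) (h2 : rv x ∈ A) : HasLine A := by
  refine ⟨fun j => if x j = 1 then (fun _ => 1) else if x j = 0 then id else Fin.rev,
    fun j => ?_, ?_, fun t => ?_⟩
  · by_cases h : x j = 1
    · left; exact ⟨1, by simp [h]⟩
    · by_cases h' : x j = 0
      · right; left; simp [h']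
      · right; right; simp [h, h']
  · by_contra hcon
    push Not at hcon
    apply hx
    funext j
    by_contra h
    have h3 : x j ≠ 1 := h
    by_cases h' : x j = 0
    · exact (hcon j).1 (by simp [h'])
    · exact (hcon j).2 (by simp [h3, h'])
  · have ht : t = 0 ∨ t = 1 ∨ t = 2 := by omega
    rcases ht with rfl | rfl | rfl
    · convert h1 using 1
      funext j
      by_cases h : x j = 1
      · simp [h]
      · by_cases h' : x j = 0
        · simp [h']
        · have : x j = 2 := by omega
          simp [this]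
    · convert h0 using 1
      funext j
      by_cases h : x j = 1
      · simp [h, o]
      · by_cases h' : x j = 0
        · simp [h', o]
        · simp [h, h', o]
    · convert h2 using 1
      funext j
      by_cases h : x j = 1
      · simp [h, rv]
      · by_cases h' : x j = 0
        · simp [h', rv]
        · have : x j = 2 := by omega
          simp [this, rv]

/-- the second player has no line after his third move -/
theorem no_line {s x y u : Fin 3 → Fin 3} (h1 : Good1 s x) (h2 : Good2 s x y)
    (h4 : Good4 s x y) (hs : s ≠ o) (hu : u ≠ o ∧ u ≠ x ∧ u ≠ y) :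
    ¬ HasLine ({u, rv x, s} : Finset (Fin 3 → Fin 3)) := by
  intro h
  have hcard := card_of_hasLine h
  rw [hasLine_three] at h
  obtain ⟨q, ⟨j0, hj0⟩, hq⟩ := h
  have hq0 : 3 ≤ q 0 ∨ 3 ≤ q 1 ∨ 3 ≤ q 2 := by
    fin_cases j0
    · exact Or.inl hj0
    · exact Or.inr (Or.inl hj0)
    · exact Or.inr (Or.inr hj0)
  have hinj : Function.Injective (fun t : Fin 3 => fun j => g5 (q j) t) := by
    intro a b hab
    have := congrFun hab j0
    rcases g5_type' (q j0) hj0 with h | h
    · simpa [h] using this
    · simpa [h] using this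
  have himg : Finset.univ.image (fun t : Fin 3 => fun j => g5 (q j) t) =
      ({u, rv x, s} : Finset (Fin 3 → Fin 3)) := by
    apply Finset.eq_of_subset_of_card_le
    · intro v hv
      obtain ⟨t, _, rfl⟩ := Finset.mem_image.1 hv
      exact hq t
    · rw [Finset.card_image_of_injective _ hinj]
      simpa using Finset.card_le_three
  have hmem : ∀ v ∈ ({u, rv x, s} : Finset (Fin 3 → Fin 3)),
      ∃ t : Fin 3, (fun j => g5 (q j) t) = v := by
    intro v hv
    rw [← himg] at hv
    obtain ⟨t, _, ht⟩ := Finset.mem_image.1 hv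
    exact ⟨t, ht⟩
  obtain ⟨t, ht⟩ := h4 q hq0 (hmem s (by simp)) (hmem (rv x) (by simp))
  have hx : rv x ≠ o := by
    intro h
    apply h1.1
    rw [← rv_rv x, h]
    rfl
  have hxx : rv x ≠ x := by
    intro h
    apply h1.1
    funext j
    have := congrFun h j
    simp only [rv] at this
    have h3 : ∀ a : Fin 3, Fin.rev a = a → a = 1 := by decide
    exact h3 _ this
  have := hq t
  rcases ht with ht | ht | ht <;> rw [ht] at this <;>
    simp only [Finset.mem_insert, Finset.mem_singleton] at this
  · rcases this with h | h | h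
    · exact hu.1 h.symm
    · exact hx h.symm
    · exact hs h.symm
  · rcases this with h | h | h
    · exact hu.2.1 h.symm
    · exact hxx h.symm
    · exact h1.2.1 h
  · rcases this with h | h | h
    · exact hu.2.2 h.symm
    · exact h2.2.2.2.1 h
    · exact h2.2.1 h

theorem HasLine.mono {k n : ℕ} {A B : Finset (Fin k → Fin n)} (h : HasLine A) (hAB : A ⊆ B) :
    HasLine B := by
  obtain ⟨f, h1, h2, h3⟩ := h
  exact ⟨f, h1, h2, fun t => hAB (h3 t)⟩

theorem rv_ne {x : Fin 3 → Fin 3} (hx : x ≠ o) : rv x ≠ o ∧ rv x ≠ x := by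
  constructor
  · intro h
    apply hx
    rw [← rv_rv x, h]
    rfl
  · intro h
    apply hx
    funext j
    have := congrFun h j
    simp only [rv] at this
    have h3 : ∀ a : Fin 3, Fin.rev a = a → a = 1 := by decide
    exact h3 _ this

theorem win3 : FirstCanForceWin 3 3 := by
  apply first_of_FW
  refine FW_move (c := o) (not_hasLine_of_card (by simp)) rfl (by simp) (by simp) ?_
  refine FW_reply (not_hasLine_of_card (by simp)) (by simp) ⟨cell 0, by decide, by simp⟩ ?_
  intro s hs1 hs2
  have hs : s ≠ o := by simpa using hs1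
  obtain ⟨g1, g2, g3, g4⟩ := good_tab s hs
  generalize cell (look s).1 = x at g1 g2 g3 g4
  generalize cell (look s).2.1 = y at g2 g3 g4
  generalize cell (look s).2.2 = z at g3
  obtain ⟨hx1, hx2⟩ := rv_ne g1.1
  obtain ⟨hy1, hy2⟩ := rv_ne g2.1
  have hxy : rv x ≠ rv y := by
    intro h
    apply g2.2.2.1
    rw [← rv_rv y, ← h, rv_rv]
  have hyx : rv y ≠ x := by
    intro h
    apply g2.2.2.2.1
    rw [← h, rv_rv]
  refine FW_move (c := x) (not_hasLine_of_card (by simp)) (by simp) ?_ ?_ ?_
  · simpa using g1.1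
  · simpa using g1.2.1
  have hc1 : (insert x (insert o (∅ : Finset (Fin 3 → Fin 3)))).card = 2 := by
    simpa using Finset.card_pair g1.1
  refine FW_reply (not_hasLine_of_card (by simp)) (by rw [hc1]; simp) ⟨rv x, ?_, ?_⟩ ?_
  · simp [hx1, hx2]
  · simpa using g1.2.2
  intro t ht1 ht2
  have hts : t ≠ s := by simpa using ht2
  have hc2 : (insert t (insert s (∅ : Finset (Fin 3 → Fin 3)))).card = 2 := by
    simpa using Finset.card_pair hts
  by_cases htx : t = rv x
  · subst htx
    refine FW_move (c := y) (not_hasLine_of_card (by rw [hc2]; norm_num)) (by rw [hc1, hc2]) ?_ ?_ ?_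
    · simp [g2.1, g2.2.2.1]
    · simp [g2.2.1, g2.2.2.2.1]
    have hc3 : (insert y (insert x (insert o (∅ : Finset (Fin 3 → Fin 3))))).card = 3 := by
      rw [Finset.card_insert_of_notMem, hc1]
      simp [g2.1, g2.2.2.1]
    refine FW_reply (not_hasLine_of_card (by rw [hc2]; norm_num)) (by rw [hc3, hc2]) ⟨z, ?_, ?_⟩ ?_
    · simp [g3.1, g3.2.2.1, g3.2.2.2.1]
    · simp [g3.2.1, g3.2.2.2.2.1]
    intro u hu1 hu2
    have hu1' : u ≠ y ∧ u ≠ x ∧ u ≠ o := by simpa using hu1
    have hu2' : u ≠ rv x ∧ u ≠ s := by simpa using hu2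
    have hB : ¬ HasLine (insert u (insert (rv x) (insert s (∅ : Finset (Fin 3 → Fin 3))))) :=
      no_line g1 g2 g4 hs ⟨hu1'.2.2, hu1'.2.1, hu1'.1⟩
    have hc4 : (insert u (insert (rv x) (insert s (∅ : Finset (Fin 3 → Fin 3))))).card = 3 := by
      rw [Finset.card_insert_of_notMem hu2, hc2]
    by_cases huy : u = rv y
    · subst huy
      refine FW_move (c := z) hB (by rw [hc3, hc4]) ?_ ?_ ?_
      · simp [g3.1, g3.2.2.1, g3.2.2.2.1]
      · simp [g3.2.1, g3.2.2.2.2.1, g3.2.2.2.2.2.1]
      · apply FW_line
        refine g3.2.2.2.2.2.2.mono ?_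
        intro v hv
        simp only [Finset.mem_insert, Finset.mem_singleton] at hv ⊢
        tauto
    · refine FW_move (c := rv y) hB (by rw [hc3, hc4]) ?_ ?_ ?_
      · simp [hy1, hy2, hyx]
      · have : rv y ≠ u := fun h => huy h.symm
        simp [this, hxy.symm, g2.2.2.2.2]
      · exact FW_line (line_centre g2.1 (by simp) (by simp) (by simp))
  · refine FW_move (c := rv x) (not_hasLine_of_card (by rw [hc2]; norm_num)) (by rw [hc1, hc2])
      ?_ ?_ ?_
    · simp [hx1, hx2]
    · have : rv x ≠ t := fun h => htx h.symm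
      simp [this, g1.2.2]
    · exact FW_line (line_centre g1.1 (by simp) (by simp) (by simp))

end Pool.Agent.H184.Thr
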